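import Pool.Agent.Helper88.QH
import Pool.Agent.Helper88.EulerGF

/-!
# MP_9fec82_nt, Q2: the three congruences modulo `p⁴`

For every prime `p > 3`

* `∑_{k<p} (6k+1) C(2k,k)³/256^k ≡ (-1/p) p - E_{p-3} p³ (mod p⁴)`,
* `∑_{k≤(p-1)/2} (6k+1) C(2k,k)³/(-512)^k ≡ (-2/p) p + (2/p) (E_{p-3}/4) p³ (mod p⁴)`,
* `∑_{k<p} (42k+5) C(2k,k)³/4096^k ≡ 5 (-1/p) p - E_{p-3} p³ (mod p⁴)`.

Method: WZ pairs; for the first sum two different exact transformations, a self-dual WZ pair and the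
terminating evaluation `sin(pπ/6)` give a linear system for the unknown sums modulo `p`; for the second
sum a transformation to a `₂F₁` at `1/2` evaluated at three `p`-adic neighbours; for the third the
half-range congruence (library) and a finite identity for the reciprocal sum.
-/

set_option autoImplicit false

open Finset

namespace Pool.Agent.Results.MP_9fec82_nt.QuestionTwo

/-- the Euler numbers `E_n = n! [t^n] 2/(e^t + e^(-t))` -/
noncomputable def euler (n : ℕ) : ℚ :=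
  (n.factorial : ℚ) * PowerSeries.coeff n
    (2 * (PowerSeries.exp ℚ + PowerSeries.evalNegHom (PowerSeries.exp ℚ))⁻¹)

/-- `x ≡ y (mod p^m)`: `x - y = p^m z` with the denominator of `z` prime to `p` -/
def Cong (p m : ℕ) (x y : ℚ) : Prop := ∃ z : ℚ, ¬ p ∣ z.den ∧ x - y = (p : ℚ) ^ m * z

lemma cong_of_I {p m : ℕ} [Fact p.Prime] {x y : ℚ} (h : Helper857.Pad.I p m (x - y)) : Cong p m x y := by
  obtain ⟨z, hz, e⟩ := h
  exact ⟨z, hz, e⟩

lemma den_dvd' {p : ℕ} (n : ℤ) (d : ℕ) (hd : ¬ p ∣ d) : ¬ p ∣ ((n : ℚ) / (d : ℚ)).den := by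
  intro h
  apply hd
  have h2 := Rat.den_dvd n d
  rw [Rat.divInt_eq_div] at h2
  have h3 : ((n : ℚ) / (d : ℚ)).den ∣ d := by exact_mod_cast h2
  exact h.trans h3

lemma c3 (k : ℕ) (x : ℚ) : (((2 * k).choose k : ℕ) : ℚ) ^ 3 / (64 * x) ^ k = Helper88.Sq.c k ^ 3 / x ^ k := by
  unfold Helper88.Sq.c
  rw [Nat.centralBinom_eq_two_mul_choose, div_pow, ← pow_mul, mul_comm k 3, pow_mul, mul_pow, div_div]
  norm_num

lemma jac_two {h : ℕ} (hp : (2 * h + 1).Prime) (hh : 1 ≤ h) : (jacobiSym 2 (2 * h + 1) : ℚ) = Helper88.QH.ep h := by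
  rw [jacobiSym.at_two (⟨h, rfl⟩ : Odd (2 * h + 1)), ZMod.χ₈_nat_eq_if_mod_eight, if_neg (by omega)]
  obtain ⟨n, rfl⟩ : ∃ n, h = n + 1 := ⟨h - 1, by omega⟩
  unfold Helper88.QH.ep
  rw [show n + 1 - 1 = n by omega]
  rcases Nat.even_or_odd' n with ⟨k, rfl | rfl⟩
  · obtain ⟨a, b⟩ := Helper88.QE.Dd_m2 k
    rw [a, b, zero_sub]
    rcases Nat.even_or_odd k with he | ho
    · rw [if_neg (by obtain ⟨r, hr⟩ := he; omega), he.neg_one_pow]; norm_num
    · rw [if_pos (by obtain ⟨r, hr⟩ := ho; omega), ho.neg_one_pow]; norm_num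
  · obtain ⟨a, b⟩ := Helper88.QE.Dd_m2 k
    obtain ⟨c, -⟩ := Helper88.QE.Dd_m2 (k + 1)
    rw [show 2 * k + 1 + 1 = 2 * (k + 1) by ring, c, b, sub_zero, pow_succ]
    rcases Nat.even_or_odd k with he | ho
    · rw [if_neg (by obtain ⟨r, hr⟩ := he; omega), he.neg_one_pow]; norm_num
    · rw [if_pos (by obtain ⟨r, hr⟩ := ho; omega), ho.neg_one_pow]; norm_num

/-- **Q2 in full**: the three congruences hold for every prime `p > 3`. -/
theorem result (p : ℕ) (hp : p.Prime) (h3 : 3 < p) :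
    Cong p 4 (∑ k ∈ range p, (6 * (k : ℚ) + 1) * ((((2 * k).choose k : ℕ) : ℚ) ^ 3 / 256 ^ k))
      ((jacobiSym (-1) p : ℚ) * p - euler (p - 3) * (p : ℚ) ^ 3) ∧
    Cong p 4 (∑ k ∈ range ((p - 1) / 2 + 1), (6 * (k : ℚ) + 1) * ((((2 * k).choose k : ℕ) : ℚ) ^ 3 / (-512) ^ k))
      ((jacobiSym (-2) p : ℚ) * p + (jacobiSym 2 p : ℚ) * (euler (p - 3) / 4) * (p : ℚ) ^ 3) ∧
    Cong p 4 (∑ k ∈ range p, (42 * (k : ℚ) + 5) * ((((2 * k).choose k : ℕ) : ℚ) ^ 3 / 4096 ^ k))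
      (5 * (jacobiSym (-1) p : ℚ) * p - euler (p - 3) * (p : ℚ) ^ 3) := by
  have : Fact p.Prime := ⟨hp⟩
  have hodd : Odd p := hp.odd_of_ne_two (by omega)
  obtain ⟨h, hh⟩ := hodd
  have hN : 2 * h + 1 = p ^ 1 := by rw [pow_one]; exact hh.symm
  have hJ : (jacobiSym (-1) p : ℚ) = (-1) ^ h := by
    rw [jacobiSym.at_neg_one (hp.odd_of_ne_two (by omega)), ZMod.χ₄_nat_eq_if_mod_four]
    rw [if_neg (by omega)]
    rcases Nat.even_or_odd h with he | ho
    · rw [if_pos (by obtain ⟨r, hr⟩ := he; omega), he.neg_one_pow]; norm_num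
    · rw [if_neg (by obtain ⟨r, hr⟩ := ho; omega), ho.neg_one_pow]; norm_num
  have hJ2 : (jacobiSym 2 p : ℚ) = Helper88.QH.ep h := by
    subst hh; exact jac_two hp (by omega)
  have hJm2 : (jacobiSym (-2) p : ℚ) = (-1) ^ h * Helper88.QH.ep h := by
    rw [← hJ, ← hJ2, show (-2 : ℤ) = -1 * 2 by norm_num, jacobiSym.mul_left]
    push_cast
    rfl
  have hE : euler (p - 3) = (R856.eulerE (p - 3) : ℚ) := Helper88.EulerGF.euler_eq (p - 3)
  refine ⟨?_, ?_, ?_⟩
  · by_cases hp5 : p = 5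
    · subst hp5
      have hE2 : euler (5 - 3) = -1 := by
        rw [hE]
        have h0 := R856.eulerE_zero
        have h2 := R856.eulerE_rec 2 (by norm_num)
        have e : (range (2 + 1)).filter (fun k => k % 2 = 0) = {0, 2} := by decide
        rw [e] at h2
        simp [h0] at h2
        have : R856.eulerE 2 = -1 := by linarith
        rw [this]; norm_num
      have hJ5 : (jacobiSym (-1) 5 : ℚ) = 1 := by
        rw [hJ]
        have : h = 2 := by omega
        rw [this]; norm_num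
      rw [hE2, hJ5]
      refine ⟨((-110575949 : ℤ) : ℚ) / ((536870912 : ℕ) : ℚ), den_dvd' (p := 5) (-110575949) 536870912 (by norm_num), ?_⟩
      rw [sum_range_succ, sum_range_succ, sum_range_succ, sum_range_succ, sum_range_one]
      norm_num [show Nat.choose 4 2 = 6 by decide, show Nat.choose 6 3 = 20 by decide, show Nat.choose 8 4 = 70 by decide]
    · apply cong_of_I
      have h1 := Helper88.QG.first' (p := p) hN h3 hp5
      rw [hE, hJ]
      unfold Helper88.QF.S1 at h1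
      rw [← hh] at h1
      have e : ∀ k ∈ range p, (6 * (k : ℚ) + 1) * ((((2 * k).choose k : ℕ) : ℚ) ^ 3 / 256 ^ k) = Helper88.QC.g k 0 := by
        intro k _
        rw [Helper88.QC.g_zero, show (256 : ℚ) = 64 * 4 by norm_num, c3]
        ring
      rw [sum_congr rfl e]
      exact h1
  · apply cong_of_I
    have h1 := Helper88.QH.second' (p := p) hN h3
    rw [hE, hJ2, hJm2, show (p - 1) / 2 = h by omega]
    have e : ∀ k ∈ range (h + 1), (6 * (k : ℚ) + 1) * ((((2 * k).choose k : ℕ) : ℚ) ^ 3 / (-512) ^ k) =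
        (6 * (k : ℚ) + 1) * Helper88.Sq.c k ^ 3 / (-8) ^ k := by
      intro k _
      rw [show (-512 : ℚ) = 64 * (-8) by norm_num, c3]
      ring
    rw [sum_congr rfl e]
    convert h1 using 1
    ring
  · apply cong_of_I
    have h1 := Helper88.QH.third_half (p := p) hN h3
    have h2 := Helper88.QG.third_up (p := p) hN h3
    rw [hE, hJ]
    have e : ∀ k ∈ range p, (42 * (k : ℚ) + 5) * ((((2 * k).choose k : ℕ) : ℚ) ^ 3 / 4096 ^ k) =
        (42 * (k : ℚ) + 5) * Helper88.Sq.c k ^ 3 / 64 ^ k := by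
      intro k _
      rw [show (4096 : ℚ) = 64 * 64 by norm_num, c3]
      ring
    rw [sum_congr rfl e]
    have e2 : ∑ k ∈ range p, (42 * (k : ℚ) + 5) * Helper88.Sq.c k ^ 3 / 64 ^ k =
        ∑ k ∈ range (h + 1), (42 * (k : ℚ) + 5) * Helper88.Sq.c k ^ 3 / 64 ^ k +
        ∑ k ∈ range h, (42 * (((h + 1 + k : ℕ) : ℚ)) + 5) * Helper88.Sq.c (h + 1 + k) ^ 3 / 64 ^ (h + 1 + k) := by
      rw [hh, show 2 * h + 1 = (h + 1) + h by ring, sum_range_add]
    rw [e2]
    have := h1.add h2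
    convert this using 1
    ring

end Pool.Agent.Results.MP_9fec82_nt.QuestionTwo
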